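import Mathlib

set_option autoImplicit false
set_option maxHeartbeats 400000

namespace Pool.Agent.Results.MP_c229cb_an.NoSep

open MvPolynomial

theorem result (n : ℕ) (hn : 2 ≤ n) :
    ∃ (K V : Set (EuclideanSpace ℂ (Fin n))) (F : Finset (MvPolynomial (Fin n) ℂ)),
      IsClosed K ∧ K.Nonempty ∧ (∀ t : ℝ, 0 < t → ∀ z ∈ K, t • z ∈ K) ∧
      V = {z | ∀ p ∈ F, eval (fun i => z i) p = 0} ∧ V.Nonempty ∧ V ≠ Set.univ ∧
      (∃ c > 0, ∀ z ∈ V, c ≤ Metric.infDist z K * (1 + ‖z‖) ^ (0 : ℝ)) ∧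
      ¬ ∃ P : MvPolynomial (Fin n) ℂ, (∀ z ∈ V, eval (fun i => z i) P = 0) ∧
        ∀ z ∈ K, eval (fun i => z i) P ≠ 0 := by
  classical
  obtain ⟨m, rfl⟩ : ∃ m, n = m + 2 := ⟨n - 2, by omega⟩
  let v : EuclideanSpace ℂ (Fin (m + 2)) := WithLp.toLp 2 (Fin.cons 0 fun _ => 1)
  let K : Set (EuclideanSpace ℂ (Fin (m + 2))) := {z | (z 1).re ≤ ‖z 0‖}
  have hK : IsClosed K := isClosed_le (by fun_prop) (by fun_prop)
  have h0 : (0 : EuclideanSpace ℂ (Fin (m + 2))) ∈ K := by simp [K]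
  have hv : v ∉ K := by
    have e1 : v 1 = 1 := rfl
    have e0 : v 0 = 0 := rfl
    simp [K, e1, e0]
  refine ⟨K, {v}, Finset.univ.image fun i => X i - C (v i), hK, ⟨0, h0⟩, fun t ht z hz => ?_, ?_,
    ⟨v, rfl⟩, fun h => ?_, ⟨_, (hK.notMem_iff_infDist_pos ⟨0, h0⟩).1 hv, ?_⟩, ?_⟩
  · simpa [K, abs_of_pos ht] using mul_le_mul_of_nonneg_left hz ht.le
  · ext z
    simp [sub_eq_zero, PiLp.ext_iff]
  · have h1 : (0 : EuclideanSpace ℂ (Fin (m + 2))) ∈ ({v} : Set _) := h ▸ Set.mem_univ _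
    exact hv (h1 ▸ h0)
  · rintro z rfl
    simp
  · rintro ⟨P, h1, h2⟩
    have e : ∀ (w : ℂ) (s : Fin (m + 1) → ℂ), eval (Fin.cons w s : Fin (m + 2) → ℂ) P =
        (Polynomial.map (eval s) (finSuccEquiv ℂ (m + 1) P)).eval w := fun w s =>
      eval_eq_eval_mv_eval' s w P
    generalize finSuccEquiv ℂ (m + 1) P = Q at e
    have h3 : ∀ j, j ≠ 0 → eval (fun _ => (1 : ℂ)) (Q.coeff j) = 0 := by
      intro j hj
      have h4 : ∀ a : ℂ, (aeval (fun _ => Polynomial.X) (Q.coeff j) : Polynomial ℂ).eval a =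
          eval (fun _ => a) (Q.coeff j) := by
        intro a
        rw [← Polynomial.coe_aeval_eq_eval, ← AlgHom.comp_apply, comp_aeval]
        simp [aeval_eq_eval]
      have h5 : (aeval (fun _ => Polynomial.X) (Q.coeff j) : Polynomial ℂ) = 0 := by
        refine Polynomial.eq_zero_of_infinite_isRoot _ (Set.infinite_of_injective_forall_mem
          (f := fun k : ℕ => -(k : ℂ)) (fun a b h => by simpa using h) fun k => ?_)
        rw [Set.mem_ofPred_eq, Polynomial.IsRoot, h4, ← Polynomial.coeff_map]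
        refine Polynomial.coeff_eq_zero_of_degree_lt (lt_of_le_of_lt (not_lt.1 fun h => ?_)
          (show (0 : WithBot ℕ) < j by exact_mod_cast Nat.pos_of_ne_zero hj))
        obtain ⟨w, hw⟩ := Complex.exists_root h
        refine h2 (WithLp.toLp 2 (Fin.cons w fun _ => -(k : ℂ))) ?_ ((e w _).trans hw)
        change (-(k : ℂ)).re ≤ ‖w‖
        simpa using le_trans (by simp) (norm_nonneg w)
      rw [← h4, h5, Polynomial.eval_zero]
    have h6 : Polynomial.map (eval fun _ => (1 : ℂ)) Q =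
        Polynomial.C (eval (fun _ => (1 : ℂ)) (Q.coeff 0)) := by
      ext j
      rw [Polynomial.coeff_map, Polynomial.coeff_C]
      split_ifs with h
      · rw [h]
      · exact h3 j h
    refine h2 (WithLp.toLp 2 (Fin.cons 1 fun _ => 1)) ?_ ((e 1 _).trans ?_)
    · change (1 : ℂ).re ≤ ‖(1 : ℂ)‖
      simp
    · have h7 := (e 0 _).symm.trans (h1 v rfl)
      rw [h6, Polynomial.eval_C] at h7 ⊢
      exact h7

end Pool.Agent.Results.MP_c229cb_an.NoSep
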